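import Mathlib

set_option autoImplicit false

namespace Pool.Agent.Results.MP_5f370d_co.SixCover

/-- The kite with vertices (0,0), (2,0), (4,4), (0,2). -/
def kite : Set (ℝ × ℝ) := {p | 0 ≤ p.1 ∧ 0 ≤ p.2 ∧ 2 * p.1 - p.2 ≤ 4 ∧ 2 * p.2 - p.1 ≤ 4}

lemma mem_copy (p : ℝ × ℝ) (s t : ℝ) (h : s ≤ p.1 ∧ t ≤ p.2 ∧
    2 * (p.1 - s) - (p.2 - t) ≤ 196 / 100 ∧ 2 * (p.2 - t) - (p.1 - s) ≤ 196 / 100) :
    p ∈ (fun k : ℝ × ℝ => (s, t) + (49 / 100 : ℝ) • k) '' kite := by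
  obtain ⟨h1, h2, h3, h4⟩ := h
  refine ⟨((p.1 - s) * (100 / 49), (p.2 - t) * (100 / 49)), ⟨?_, ?_, ?_, ?_⟩, ?_⟩
  · simp only; linarith
  · simp only; linarith
  · simp only; linarith
  · simp only; linarith
  · ext <;> simp <;> ring

lemma cover (u v : ℝ) (a : 0 ≤ u) (b : 0 ≤ v) (c : 2 * u - v ≤ 4) (d : 2 * v - u ≤ 4) :
    ∃ i : Fin 6, let s : ℝ := ![0, 95 / 100, -18 / 100, 21 / 10, 146 / 100, 84 / 100] i
      let t : ℝ := ![0, -18 / 100, 95 / 100, 21 / 10, 84 / 100, 146 / 100] i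
      s ≤ u ∧ t ≤ v ∧ 2 * (u - s) - (v - t) ≤ 196 / 100 ∧ 2 * (v - t) - (u - s) ≤ 196 / 100 := by
  by_contra h
  have h0 := fun e => h ⟨0, e⟩
  have h1 := fun e => h ⟨1, e⟩
  have h2 := fun e => h ⟨2, e⟩
  have h3 := fun e => h ⟨3, e⟩
  have h4 := fun e => h ⟨4, e⟩
  have h5 := fun e => h ⟨5, e⟩
  clear h
  simp only [Matrix.cons_val, imp_false, not_and_or, not_le] at h0 h1 h2 h3 h4 h5
  rcases h0 with h0 | h0 | h0 | h0 <;> try linarith
  all_goals rcases h3 with h3 | h3 | h3 | h3 <;> try linarith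
  all_goals rcases h1 with h1 | h1 | h1 | h1 <;> try linarith
  all_goals rcases h2 with h2 | h2 | h2 | h2 <;> try linarith
  all_goals rcases h4 with h4 | h4 | h4 | h4 <;> try linarith
  all_goals rcases h5 with h5 | h5 | h5 | h5 <;> linarith

/-- Some plane convex body is covered by six homothetic copies of itself with positive ratios
smaller than one half. -/
theorem result : ∃ K : Set (ℝ × ℝ), IsCompact K ∧ Convex ℝ K ∧ (interior K).Nonempty ∧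
    ∃ (x : Fin 6 → ℝ × ℝ) (l : Fin 6 → ℝ), (∀ i, 0 < l i ∧ l i < 1 / 2) ∧
      K ⊆ ⋃ i, (fun k => x i + l i • k) '' K := by
  refine ⟨kite, ?_, ?_, ⟨(1, 1), ?_⟩,
    fun i => (![0, 95 / 100, -18 / 100, 21 / 10, 146 / 100, 84 / 100] i,
      ![0, -18 / 100, 95 / 100, 21 / 10, 84 / 100, 146 / 100] i), fun _ => 49 / 100,
    fun _ => by norm_num, ?_⟩
  · refine ((isCompact_Icc (a := (0 : ℝ)) (b := 4)).prod
      (isCompact_Icc (a := (0 : ℝ)) (b := 4))).of_isClosed_subset ?_ ?_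
    · refine (isClosed_le continuous_const continuous_fst).inter
        ((isClosed_le continuous_const continuous_snd).inter
        ((isClosed_le (f := fun p : ℝ × ℝ => 2 * p.1 - p.2) (by fun_prop) continuous_const).inter
        (isClosed_le (f := fun p : ℝ × ℝ => 2 * p.2 - p.1) (by fun_prop) continuous_const)))
    · rintro p ⟨a, b, c, d⟩
      exact ⟨⟨a, by linarith⟩, ⟨b, by linarith⟩⟩
  · rintro p ⟨a, b, c, d⟩ q ⟨a', b', c', d'⟩ s t hs ht hst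
    refine ⟨?_, ?_, ?_, ?_⟩ <;> simp only [Prod.fst_add, Prod.snd_add, Prod.smul_fst,
      Prod.smul_snd, smul_eq_mul] <;> nlinarith
  · refine mem_interior.2 ⟨Set.Ioo 0 2 ×ˢ Set.Ioo 0 2, ?_, isOpen_Ioo.prod isOpen_Ioo, by norm_num⟩
    rintro p ⟨⟨a, b⟩, ⟨c, d⟩⟩
    exact ⟨a.le, c.le, by linarith, by linarith⟩
  · rintro p ⟨a, b, c, d⟩
    obtain ⟨i, hi⟩ := cover p.1 p.2 a b c d
    exact Set.mem_iUnion.2 ⟨i, mem_copy p _ _ hi⟩

end Pool.Agent.Results.MP_5f370d_co.SixCover
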